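import Pool.Agent.Q7.CJ.Stm3

/-!
# Project CJ of helper7: job DIC
-/

set_option autoImplicit false

namespace Pool.Agent.Q154.CJDIC

open Polynomial NumberField IsDedekindDomain Pool.Agent.Q7.CJ
open scoped nonZeroDivisors

section Gen

variable {R : Type} [CommRing R] [IsDomain R]

theorem isClass_ne_bot {P : ClassGroup R} {I : Ideal R} (h : IsClass P I) : I ≠ ⊥ := by
  rintro rfl
  obtain ⟨u, hu, -⟩ := h
  rw [FractionalIdeal.coeIdeal_bot] at hu
  exact u.ne_zero hu

theorem isClass_mul {P Q : ClassGroup R} {I J : Ideal R} (h : IsClass P I) (h' : IsClass Q J) :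
    IsClass (P * Q) (I * J) := by
  obtain ⟨u, hu, rfl⟩ := h
  obtain ⟨v, hv, rfl⟩ := h'
  refine ⟨u * v, ?_, map_mul _ _ _⟩
  rw [Units.val_mul, hu, hv, FractionalIdeal.coeIdeal_mul]

theorem isClass_one : IsClass (1 : ClassGroup R) ⊤ := by
  refine ⟨1, ?_, map_one _⟩
  rw [Units.val_one, FractionalIdeal.coeIdeal_top]

theorem isClass_cmap {S : Type} [CommRing S] [IsDomain S] (f : R →+* S)
    (hf : Function.Injective f) {P : ClassGroup R} {I : Ideal R} (h : IsClass P I) :
    IsClass (cmap f hf P) (I.map f) := by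
  obtain ⟨u, hu, rfl⟩ := h
  unfold cmap
  letI : Algebra R S := f.toAlgebra
  haveI : FaithfulSMul R S := (faithfulSMul_iff_algebraMap_injective _ _).2 hf
  refine ⟨Units.map (FractionalIdeal.extendedHom (FractionRing S) S).toMonoidHom u, ?_, ?_⟩
  · rw [Units.coe_map]
    change FractionalIdeal.extendedHom (FractionRing S) S
      (u : FractionalIdeal R⁰ (FractionRing R)) = _
    rw [hu, FractionalIdeal.extendedHom_coeIdeal_eq_map]
    rfl
  · exact (ClassGroup.extendedHom_mk R S u).symm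

variable [IsDedekindDomain R]

theorem isClass_iff {P : ClassGroup R} {I : Ideal R} (hI : I ∈ (Ideal R)⁰) :
    IsClass P I ↔ ClassGroup.mk0 ⟨I, hI⟩ = P := by
  constructor
  · rintro ⟨u, hu, rfl⟩
    rw [← ClassGroup.mk_mk0 (FractionRing R)]
    congr 1
    refine Units.ext ?_
    rw [FractionalIdeal.coe_mk0, hu]
  · rintro rfl
    exact ⟨FractionalIdeal.mk0 (FractionRing R) ⟨I, hI⟩, FractionalIdeal.coe_mk0 _ _,
      ClassGroup.mk_mk0 (FractionRing R) ⟨I, hI⟩⟩

theorem exists_isClass (P : ClassGroup R) : ∃ I : Ideal R, IsClass P I := by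
  obtain ⟨⟨I, hI⟩, rfl⟩ := ClassGroup.mk0_surjective P
  exact ⟨I, (isClass_iff hI).2 rfl⟩

theorem exists_class {I : Ideal R} (hI : I ≠ ⊥) : ∃ P : ClassGroup R, IsClass P I :=
  ⟨_, (isClass_iff (mem_nonZeroDivisors_iff_ne_zero.2 hI)).2 rfl⟩

theorem eq_iff {P Q : ClassGroup R} {I J : Ideal R} (h : IsClass P I) (h' : IsClass Q J) :
    P = Q ↔ ∃ a b : R, a ≠ 0 ∧ b ≠ 0 ∧ Ideal.span {a} * I = Ideal.span {b} * J := by
  have hI : I ∈ (Ideal R)⁰ := mem_nonZeroDivisors_iff_ne_zero.2 (isClass_ne_bot h)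
  have hJ : J ∈ (Ideal R)⁰ := mem_nonZeroDivisors_iff_ne_zero.2 (isClass_ne_bot h')
  rw [isClass_iff hI] at h
  rw [isClass_iff hJ] at h'
  rw [← h, ← h', ClassGroup.mk0_eq_mk0_iff]
  constructor
  · rintro ⟨x, y, hx, hy, hxy⟩
    exact ⟨x, y, hx, hy, hxy⟩
  · rintro ⟨x, y, hx, hy, hxy⟩
    exact ⟨x, y, hx, hy, hxy⟩

end Gen

theorem xx_ne_zero (p : ℕ) [Fact p.Prime] {L : Type} [Field L] (D : L) : xx p D ≠ 0 := by
  intro h
  unfold xx at h
  rw [← AdjoinRoot.mk_X, AdjoinRoot.mk_eq_zero] at h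
  have h1 := Polynomial.natDegree_le_of_dvd h X_ne_zero
  rw [ff_natDegree, natDegree_X] at h1
  have := (Fact.out (p := p.Prime)).two_le
  omega

theorem t1_ne_bot (p : ℕ) [Fact p.Prime] {L : Type} [Field L] (D : L) : t1 p D ≠ ⊥ := by
  intro h
  have h1 : xx p D ∈ t1 p D := Ideal.subset_span (by simp)
  rw [h, Ideal.mem_bot] at h1
  exact xx_ne_zero p D h1

theorem dic : S_DED → S_BC → S_DIC := by
  intro hded _ p _ _ F _ _ D hD L _ _
  have hc : ∀ (M : Type) [Field M] [Algebra F M], CharZero M := fun M _ _ =>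
    charZero_of_injective_algebraMap (algebraMap F M).injective
  haveI := hc L
  have hDL : algebraMap F L D ≠ 0 := (_root_.map_ne_zero _).2 hD
  haveI : IsDedekindDomain (BR p (algebraMap F L D)) := (hded p L _ hDL).1
  refine ⟨fun P => exists_isClass (R := BR p (algebraMap F L D)) P,
    fun I hI => exists_class (R := BR p (algebraMap F L D)) hI,
    fun P I h => isClass_ne_bot (R := BR p (algebraMap F L D)) h,
    fun P Q I J h h' => ⟨eq_iff (R := BR p (algebraMap F L D)) h h',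
      isClass_mul (R := BR p (algebraMap F L D)) h h'⟩,
    isClass_one (R := BR p (algebraMap F L D)), ?_, ?_, ?_⟩
  · unfold tT
    have h : ∃ P : Jp p D L, IsCls p D P (t1 p (algebraMap F L D)) :=
      exists_class (R := BR p (algebraMap F L D)) (t1_ne_bot p _)
    rw [dif_pos h]
    exact h.choose_spec
  · intro ζ h h' P I hP
    exact isClass_cmap (R := BR p (algebraMap F L D)) _ (sg_injective p (algebraMap F L D) (algebraMap F L ζ) h') hP
  · intro M _ _ φ P I hP
    exact isClass_cmap (R := BR p (algebraMap F L D)) _ (bc_injective p _ _ _ _) hP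

end Pool.Agent.Q154.CJDIC
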